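import Pool.Agent.N975.JT.Rn

/-!
# JT: densities of classes of squarefree numbers modulo `8 * 3 * 5 * 7 * 17`
-/

set_option autoImplicit false
set_option linter.all false

namespace Pool.Agent.N972.JT.Wt

open Finset Filter
open Pool.Agent.N855.GF (SQ wt RR dl dl_pos lim_class)

/-- the number of the classes -/
theorem RR_gen {M a : ℕ} (hM : 0 < M) (hc : Nat.Coprime (a.gcd M) (M / a.gcd M)) :
    (RR M a).card = Nat.totient (a.gcd M) := by
  have hg : 0 < a.gcd M := Nat.gcd_pos_of_pos_right a hM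
  have hn : a.gcd M * (M / a.gcd M) = M := Nat.mul_div_cancel' (Nat.gcd_dvd_right a M)
  have hb : Nat.Coprime (a / a.gcd M) (M / a.gcd M) := Nat.coprime_div_gcd_div_gcd hg
  unfold RR
  generalize a.gcd M = g at *
  generalize M / g = n at *
  generalize a / g = b at *
  have hn0 : 0 < n := by
    rcases Nat.eq_zero_or_pos n with h | h
    · subst h; omega
    · exact h
  rw [Nat.totient_eq_card_coprime]
  apply Finset.card_bij (fun r _ => r % g)
  · intro r hr
    rw [mem_filter, mem_range] at hr ⊢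
    refine ⟨Nat.mod_lt _ hg, ?_⟩
    have h1 : Nat.Coprime r g := Nat.Coprime.coprime_dvd_right ⟨n, hn.symm⟩ hr.2.1
    rw [Nat.coprime_comm]
    unfold Nat.Coprime
    rw [← Nat.gcd_rec]
    exact h1.symm
  · intro r hr r' hr' h
    rw [mem_filter, mem_range] at hr hr'
    have h1 : r ≡ r' [MOD g * n] :=
      (Nat.modEq_and_modEq_iff_modEq_mul hc).1 ⟨h, hr.2.2.trans hr'.2.2.symm⟩
    rw [hn] at h1
    exact Nat.ModEq.eq_of_lt_of_lt h1 hr.1 hr'.1
  · intro x hx
    rw [mem_filter, mem_range] at hx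
    obtain ⟨r, h1, h2⟩ := Nat.chineseRemainder hc x b
    refine ⟨r % M, ?_, ?_⟩
    · rw [mem_filter, mem_range]
      have hrM : r % M ≡ r [MOD n] := by
        have : n ∣ M := ⟨g, by rw [← hn, mul_comm]⟩
        exact Nat.mod_mod_of_dvd r this
      refine ⟨Nat.mod_lt _ hM, ?_, hrM.trans h2⟩
      have h3 : Nat.Coprime r M := by
        rw [← hn]
        refine Nat.Coprime.mul_right ?_ ?_
        · have : Nat.Coprime x g := hx.2.symm
          unfold Nat.Coprime at this ⊢
          rw [Nat.ModEq.gcd_eq h1, this]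
        · unfold Nat.Coprime at hb ⊢
          rw [Nat.ModEq.gcd_eq h2, hb]
      unfold Nat.Coprime at h3 ⊢
      rw [Nat.ModEq.gcd_eq (Nat.mod_modEq r M), h3]
    · show r % M % g = x
      rw [Nat.mod_mod_of_dvd r ⟨n, hn.symm⟩]
      have : r % g = x % g := h1
      rw [this, Nat.mod_eq_of_lt hx.1]

/-- the weights modulo `1785` -/
def w (a : ℕ) : ℕ := (if a % 3 = 0 then 2 else 3) * (if a % 5 = 0 then 4 else 5) *
  (if a % 7 = 0 then 6 else 7) * (if a % 17 = 0 then 16 else 17)

theorem w_div : ∀ g ∈ Nat.divisors 1785, Nat.Coprime g (14280 / g) ∧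
    Nat.totient g * 1785 = w g * g := by
  decide +kernel

theorem sq1785 : Squarefree 1785 := by
  have h : (1785 : ℕ) = 3 * (5 * (7 * 17)) := by norm_num
  rw [h, Nat.squarefree_mul (by norm_num), Nat.squarefree_mul (by norm_num),
    Nat.squarefree_mul (by norm_num)]
  exact ⟨Nat.prime_three.squarefree, Nat.prime_five.squarefree,
    (by norm_num : Nat.Prime 7).squarefree, (by norm_num : Nat.Prime 17).squarefree⟩

theorem wt_w {a : ℕ} (ha : a % 2 = 1) : wt 14280 a = w a / 1785 := by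
  have hg : a.gcd 14280 ∣ 1785 := by
    have h1 : Nat.Coprime (a.gcd 14280) 8 := by
      have : Nat.Coprime a 2 := Nat.coprime_two_right.2 (Nat.odd_iff.2 ha)
      have h8 : Nat.Coprime a 8 := by
        have : Nat.Coprime a (2 ^ 3) := Nat.Coprime.pow_right 3 this
        simpa using this
      exact Nat.Coprime.coprime_dvd_left (Nat.gcd_dvd_left _ _) h8
    have h2 : a.gcd 14280 ∣ 8 * 1785 := Nat.gcd_dvd_right a 14280
    exact h1.dvd_of_dvd_mul_left h2
  obtain ⟨h1, h2⟩ := w_div _ (Nat.mem_divisors.2 ⟨hg, by norm_num⟩)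
  have hw : w (a.gcd 14280) = w a := by
    have hp : ∀ p, p ∣ 14280 → (a.gcd 14280 % p = 0 ↔ a % p = 0) := by
      intro p hp
      rw [← Nat.dvd_iff_mod_eq_zero, ← Nat.dvd_iff_mod_eq_zero, Nat.dvd_gcd_iff]
      exact and_iff_left hp
    unfold w
    simp only [hp 3 (by norm_num), hp 5 (by norm_num), hp 7 (by norm_num), hp 17 (by norm_num)]
  rw [hw] at h2
  have hg0 : (0 : ℝ) < (a.gcd 14280 : ℕ) := by
    have : 0 < a.gcd 14280 := Nat.gcd_pos_of_pos_right a (by norm_num)
    exact_mod_cast this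
  unfold Pool.Agent.N855.GF.wt
  rw [if_pos (sq1785.squarefree_of_dvd hg), RR_gen (by norm_num) h1,
    div_eq_div_iff hg0.ne' (by norm_num)]
  exact_mod_cast h2

/-- the number with given residues modulo `8` and `1785` -/
def cr (c b : ℕ) : ℕ := (c * 1785 + b * 8 * 1562) % 14280

theorem cr_spec {c b n : ℕ} (hc : c < 8) (hb : b < 1785) :
    n % 14280 = cr c b ↔ n % 8 = c ∧ n % 1785 = b := by
  unfold cr
  constructor
  · intro h
    omega
  · rintro ⟨h1, h2⟩
    omega

theorem cr_odd {c b : ℕ} (hc : c % 2 = 1) : cr c b % 2 = 1 := by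
  unfold cr
  omega

/-- the classes modulo `8` and `1785` -/
noncomputable def CC (c : ℕ) (p : ℕ → Bool) (Y : ℕ) : ℕ :=
  ((Icc 1 Y).filter fun n => Squarefree n ∧ n % 8 = c ∧ p (n % 1785) = true).card

theorem cc_sum {c : ℕ} (hc : c < 8) (p : ℕ → Bool) (Y : ℕ) :
    CC c p Y = ∑ b ∈ (range 1785).filter fun b => p b = true, (SQ 14280 (cr c b) Y).card := by
  unfold CC
  rw [Finset.card_eq_sum_card_fiberwise (f := fun n => n % 1785)
    (t := (range 1785).filter fun b => p b = true)]
  · refine sum_congr rfl fun b hb => ?_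
    rw [mem_filter, mem_range] at hb
    congr 1
    unfold Pool.Agent.N855.GF.SQ
    ext n
    simp only [mem_filter, cr_spec hc hb.1]
    constructor
    · rintro ⟨⟨h1, h2, h3, h4⟩, h5⟩
      exact ⟨h1, h2, h3, h5⟩
    · rintro ⟨h1, h2, h3, h4⟩
      exact ⟨⟨h1, h2, h3, by rw [h4]; exact hb.2⟩, h4⟩
  · intro n hn
    simp only [coe_filter, mem_Icc, Set.mem_setOf_eq] at hn
    simp only [coe_filter, mem_range, Set.mem_setOf_eq]
    exact ⟨Nat.mod_lt _ (by norm_num), hn.2.2.2⟩

/-- **the density of the classes** -/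
theorem cc_lim {c : ℕ} (hc : c < 8) (h2 : c % 2 = 1) (p : ℕ → Bool) {W : ℕ}
    (hW : ∑ b ∈ (range 1785).filter (fun b => p b = true), w b = W) :
    Tendsto (fun Y : ℕ => (CC c p Y : ℝ) / Y) atTop (nhds ((W : ℝ) / 1785 * dl 14280)) := by
  have hwc : ∀ b, w (cr c b) = w b := by
    intro b
    have h3 : cr c b % 3 = b % 3 := by unfold cr; omega
    have h5 : cr c b % 5 = b % 5 := by unfold cr; omega
    have h7 : cr c b % 7 = b % 7 := by unfold cr; omega
    have h17 : cr c b % 17 = b % 17 := by unfold cr; omega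
    unfold w
    rw [h3, h5, h7, h17]
  have h1 : ∀ Y : ℕ, (CC c p Y : ℝ) / Y =
      ∑ b ∈ (range 1785).filter (fun b => p b = true), ((SQ 14280 (cr c b) Y).card : ℝ) / Y := by
    intro Y
    rw [cc_sum hc, ← sum_div]
    push_cast
    rfl
  have h3 : (W : ℝ) / 1785 * dl 14280 =
      ∑ b ∈ (range 1785).filter (fun b => p b = true), wt 14280 (cr c b) * dl 14280 := by
    rw [← hW]
    push_cast
    rw [sum_div, sum_mul]
    refine sum_congr rfl fun b _ => ?_
    rw [wt_w (cr_odd h2), hwc]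
  rw [h3]
  simp only [h1]
  refine tendsto_finsetSum _ fun b _ => lim_class (by norm_num) ?_
  unfold cr
  exact Nat.mod_lt _ (by norm_num)

end Pool.Agent.N972.JT.Wt
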