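import Pool.Agent.N809.JT.Df

/-!
# JT: the level 15 side of the joint theorem
-/

set_option autoImplicit false
set_option linter.all false

open scoped Classical

namespace Pool.Agent.N972.JT

open Finset Filter
open Pool.Agent.Y703.CQ (nr sg)
open Pool.Agent.N973.ND (uu nr_rec nr_self)
open Pool.Agent.N916.GB (Po sx pt Vt eta sy Ev Gv Gd z2_add_self Ev_inl Ev_inr)
open Pool.Agent.N958.GB (lb rr rr_inj rr_im NR sgm two_tuples rec_NR ud wd z2 mem_Vt
  Vt_sub sy_ne Gd_iff)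
open Pool.Agent.N875.X15 (PR ra sgp d2 oe ch)
open Pool.Agent.N875.P17 (al ra_rec al_odd ra_neg_one)
open Pool.Agent.N809.PQ hiding z2 vc G15
open Pool.Agent.N916.AM (Nd Rich Bs sub_Bs uu_mod nr_Bs)
open Pool.Agent.N916.PQ
open Pool.Agent.N809.JT (J15 S15)

theorem J15.mono {M : ℕ} (hM0 : 0 < M) {K K' : Finset ℕ} {t : Bool} {r s : ZMod 2}
    {G : Finset ℕ → Prop} (h : ∀ a ∈ K, a < M → a ∈ K') (hJ : J15 M K' t r s G) :
    J15 M K t r s G := by
  intro ι _ _ _ S₀ p hS₀ hp hpi hpK hN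
  exact hJ ι S₀ p hS₀ hp hpi (h _ hpK (Nat.mod_lt _ hM0)) hN

theorem J15.union {M : ℕ} {K K' : Finset ℕ} {t : Bool} {r s : ZMod 2}
    {G : Finset ℕ → Prop} (h : J15 M K t r s G) (h' : J15 M K' t r s G) :
    J15 M (K ∪ K') t r s G := by
  intro ι _ _ _ S₀ p hS₀ hp hpi hpK hN
  rcases mem_union.1 hpK with hK | hK
  · exact h ι S₀ p hS₀ hp hpi hK hN
  · exact h' ι S₀ p hS₀ hp hpi hK hN

/-- the sets of the primes -/
theorem pre {M : ℕ} {K : Finset ℕ} {ι : Type} [Fintype ι] [Nonempty ι] {S₀ : Finset ℕ} {p : ι → ℕ}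
    (hS₀ : ∀ v ∈ S₀, Po v) (hpK : ((∏ v ∈ S₀, v) * ∏ i, p i) % M ∈ K) {q : ι → ℕ}
    (hqi : Function.Injective q) (hq1 : ∀ i, Po (q i)) (hq2 : ∀ i, q i ∉ S₀)
    (hqm : ∀ i, q i % M = p i % M) :
    (∀ v ∈ S₀ ∪ univ.image q, Po v) ∧ (∏ x ∈ S₀ ∪ univ.image q, x) % M ∈ K ∧
      (S₀ ∪ univ.image q).Nonempty := by
  refine ⟨?_, ?_, ?_⟩
  · intro v hv
    rcases mem_union.1 hv with h | h
    · exact hS₀ v h
    · obtain ⟨i, -, rfl⟩ := mem_image.1 h
      exact hq1 i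
  · have hdis : Disjoint S₀ (univ.image q) := by
      rw [Finset.disjoint_left]
      intro x hx hx'
      obtain ⟨i, -, rfl⟩ := mem_image.1 hx'
      exact hq2 i hx
    rw [prod_union hdis, prod_image fun i _ j _ h => hqi h]
    have h1 : (∏ i, q i) % M = (∏ i, p i) % M := by
      rw [Finset.prod_nat_mod, Finset.prod_nat_mod univ M p]
      simp only [hqm]
    rw [Nat.mul_mod, h1, ← Nat.mul_mod]
    exact hpK
  · obtain ⟨i₀⟩ := (inferInstance : Nonempty ι)
    exact ⟨q i₀, mem_union_right _ (mem_image_of_mem q (mem_univ i₀))⟩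

/-- the use of the nondegenerate labels -/
theorem nd_use0 {M : ℕ} {ι : Type} [Fintype ι] {S₀ : Finset ℕ} {p : ι → ℕ} {t : Bool}
    (hM : 8 ∣ M) (hM0 : 0 < M) (hN : Nd M S₀ (univ.image p))
    (b : ↥(Vt t S₀) → ZMod 2) (c : ZMod 2)
    (h : ∀ l, ∑ v, b v * nr (p l) v + c * uu (p l) = 0) :
    (∀ v, b v = 0) ∧ c = 0 := by
  by_contra hcon
  set w : ℕ → ZMod 2 := fun n => if h : n ∈ Vt t S₀ then b ⟨n, h⟩ else 0 with hw
  have hw1 : ∀ v : (Vt t S₀ : Finset ℕ), w v = b v := fun v => by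
    rw [hw]
    exact dif_pos v.2
  have hw2 : ∀ n, n ∉ Vt t S₀ → w n = 0 := fun n hn => by
    rw [hw]
    exact dif_neg hn
  have hsub : Vt t S₀ ⊆ Bs M S₀ := (Vt_sub t S₀).trans (sub_Bs hM hM0 S₀)
  obtain ⟨x, hx, hx2⟩ := hN w c (by
    by_contra h0
    push Not at h0
    refine hcon ⟨fun v => ?_, h0.2⟩
    rw [← hw1]
    exact h0.1 _ (hsub v.2))
  obtain ⟨k, -, rfl⟩ := mem_image.1 hx
  apply hx2
  have c2 : ∑ v ∈ Vt t S₀, w v * nr (p k) v = ∑ v ∈ Bs M S₀, w v * nr (p k) v :=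
    sum_subset hsub fun x _ hx => by rw [hw2 x hx, zero_mul]
  have c3 : ∑ v : (Vt t S₀ : Finset ℕ), b v * nr (p k) v = ∑ v ∈ Vt t S₀, w v * nr (p k) v := by
    rw [← Finset.sum_coe_sort (Vt t S₀)]
    refine sum_congr rfl fun v _ => ?_
    rw [hw1]
  rw [← c2, ← c3, h k]

/-- the criterion of a matrix without border -/
theorem Gc_Gv {U J : Type} [Fintype U] [Fintype J] [LinearOrder J] [Nonempty J]
    (N : U ⊕ J → U ⊕ J → ZMod 2) (δ : J → J → ZMod 2) :
    Gc (Lm N) (fun _ => 1) δ ↔ Gv (pt N δ) := by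
  have key : ∀ y : U ⊕ J → ZMod 2, IsS (Lm N) δ y ↔ ∀ i, Ev (pt N δ) y i = 0 := by
    intro y
    unfold IsS
    have e : ∀ i, ev (Lm N) y i = Ev N y i := fun i => Lm_Ev N y i
    simp only [e]
    constructor
    · rintro ⟨h1, h2⟩ (v | l)
      · rw [Ev_inl]
        exact h1 v
      · rw [Ev_inr]
        exact h2 l
    · intro h
      refine ⟨fun v => ?_, fun l => ?_⟩
      · have := h (Sum.inl v)
        rw [Ev_inl] at this
        exact this
      · have := h (Sum.inr l)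
        rw [Ev_inr] at this
        exact this
  obtain ⟨j₀⟩ := (inferInstance : Nonempty J)
  constructor
  · intro h x hx a b
    obtain ⟨β, hβ⟩ := h x ((key x).2 hx)
    rw [hβ a, hβ b]
  · intro h x hx
    refine ⟨x (Sum.inr j₀), fun c => ?_⟩
    rw [mul_one]
    exact h x ((key x).1 hx) _ _

/-- the criterion `G` is the criterion of a Rédei matrix -/
def IsA (M : ℕ) (K : Finset ℕ) (t : Bool) (r s : ZMod 2) (G : Finset ℕ → Prop) : Prop :=
  ∀ (V : Type) [Fintype V] (ρ : V → ℕ) (S : Finset ℕ), (∀ v ∈ S, Po v) → (∏ v ∈ S, v) % M ∈ K →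
    S.Nonempty → Function.Injective ρ → univ.image ρ = Vt t S →
    (G S ↔ Gv (NR r s ρ)) ∧ ∀ j, ∑ i, Lm (NR r s ρ) i j * wd r ρ i = 0

theorem j_a {M : ℕ} (hM : 8 ∣ M) (hM0 : 0 < M) {t : Bool} {r s : ZMod 2} {K : Finset ℕ}
    (htr : t = true → r ≠ 0 ∨ s ≠ 0) {G : Finset ℕ → Prop} (hG : IsA M K t r s G) :
    J15 M K t r s G := by
  intro ι _ _ _ S₀ p hS₀ hp hpi hpK hN
  set r₀ := rr t S₀ p with hr₀
  have hrp : ∀ i, (r₀ i).Prime := prm hS₀ hp
  have hrinj : Function.Injective r₀ := rr_inj t hpi (fun i => (hp i).2.1) fun i => (hp i).1.2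
  obtain ⟨m1, m2, m3⟩ := pre hS₀ hpK hpi (fun i => (hp i).1) (fun i => (hp i).2.1) fun i => rfl
  obtain ⟨-, k2⟩ := hG _ r₀ (S₀ ∪ univ.image p) m1 m2 m3 hrinj (rr_im t)
  have hN1 : ∀ (v : (Vt t S₀ : Finset ℕ)) (l : ι), NR r s r₀ (Sum.inl v) (Sum.inr l) = nr (p l) v :=
    fun v l => sy_ne r s (hp l).1.2
  have hud : ∀ l : ι, ud s r₀ (Sum.inr l) = uu (p l) := fun l => if_neg (hp l).1.2
  have hwd : ∀ l : ι, wd r r₀ (Sum.inr l) = 1 := fun l => if_neg (hp l).1.2
  refine ⟨(Vt t S₀ : Finset ℕ), (Vt t S₀ : Finset ℕ), inferInstance, inferInstance,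
    Lm (NR r s r₀), wd r r₀, fun _ => 1, ?_, rfl, Nat.le_succ _, fun k l => rfl, ?_⟩
  · refine ⟨hwd, fun l => rfl, ?_, ?_, ?_, ?_, ?_⟩
    · intro c
      rw [← k2 c]
      exact sum_congr rfl fun i _ => mul_comm _ _
    · intro i
      rw [Lm_Ev]
      exact Pool.Agent.N916.GB.Ev_const _ _ _
    · intro b hb
      exact (nd_use0 hM hM0 hN b 0 fun l => by
        rw [zero_mul, add_zero, ← hb l]
        refine sum_congr rfl fun v _ => ?_
        rw [Lm_ne _ (by simp), hN1]).1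
    · intro b hb
      obtain ⟨h3, h5⟩ := nd_use0 hM hM0 hN (fun v => b v * wd r r₀ (Sum.inl v))
        (∑ v, b v * ud s r₀ (Sum.inl v)) fun l => by
          have h6 := hb l
          have h8 : ∀ v, Lm (NR r s r₀) (Sum.inr l) (Sum.inl v) =
              wd r r₀ (Sum.inl v) * nr (p l) v + ud s r₀ (Sum.inl v) * uu (p l) := by
            intro v
            rw [Lm_ne _ (by simp)]
            have h9 := rec_NR r s hrinj hrp (Sum.inr l) (Sum.inl v) (by simp)
            rw [hwd, hud, one_mul, hN1] at h9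
            have h10 := z2_add_self (wd r r₀ (Sum.inl v) * nr (p l) v)
            linear_combination h9 - h10
          simp only [h8] at h6
          rw [← h6, sum_mul, ← sum_add_distrib]
          exact sum_congr rfl fun v _ => by ring
      intro v
      rcases z2 (wd r r₀ (Sum.inl v)) with h6 | h6
      · obtain ⟨h7, h8⟩ := uniq2 htr hS₀ v h6
        rw [sum_eq_single v] at h5
        · rw [h7, mul_one] at h5
          exact h5
        · intro v' _ hv'
          rcases z2 (wd r r₀ (Sum.inl v')) with h9 | h9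
          · exact absurd (h8 v' h9).symm hv'
          · have : b v' * wd r r₀ (Sum.inl v') = 0 := h3 v'
            rw [h9, mul_one] at this
            rw [this, zero_mul]
        · intro h
          exact absurd (mem_univ v) h
      · have : b v * wd r r₀ (Sum.inl v) = 0 := h3 v
        rw [h6, mul_one] at this
        exact this
    · intro k l hkl
      have h := rec_NR r s hrinj hrp (Sum.inr k) (Sum.inr l) fun h => hkl (Sum.inr_injective h)
      rw [hwd, hwd, one_mul, one_mul] at h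
      rw [← h, Lm_ne _ fun h => hkl (Sum.inr_injective h),
        Lm_ne _ fun h => hkl (Sum.inr_injective h).symm]
  · intro q hqi hq
    obtain ⟨a1, a2, a3, a4⟩ := two_q (t := t) (r := r) (s := s) hM hM0 hS₀ hp hpi hqi hq
    obtain ⟨n1, n2, n3⟩ := pre hS₀ hpK hqi (fun i => (hq i).1) (fun i => (hq i).2.1)
      fun i => (hq i).2.2.1
    obtain ⟨b1, -⟩ := hG _ (rr t S₀ q) (S₀ ∪ univ.image q) n1 n2 n3
      (rr_inj t hqi (fun i => (hq i).2.1) fun i => (hq i).1.2) (rr_im t)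
    rw [b1, a1, Gc_Gv]

theorem j_b {M : ℕ} (hM : 8 ∣ M) (hM0 : 0 < M) {t : Bool} {r s : ZMod 2} {K : Finset ℕ}
    (htr : t = true → r ≠ 0 ∨ s ≠ 0) {g h : ℕ} (hg : g ∈ M.primeFactors) (hg2 : g ≠ 2)
    (hh : h ∈ M.primeFactors) (hh2 : h ≠ 2) (hgK : ∀ a ∈ K, ¬ g ∣ a) (hhK : ∀ a ∈ K, ¬ h ∣ a)
    {fu fw : ℕ → ZMod 2} {e x0 κ a0 κ' : ZMod 2}
    (hfu : ∀ p, Po p → p.Coprime M → fu p = nr p g + κ * uu p)
    (hfw : ∀ p, Po p → p.Coprime M → fw p = a0 * nr p h + κ' * uu p) (ha0 : a0 = 1 ∨ κ' = 1)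
    {G : Finset ℕ → Prop} (hG : IsB M K t r s fu fw e x0 G) : J15 M K t r s G := by
  intro ι _ _ _ S₀ p hS₀ hp hpi hpK hN
  set r₀ := rr t S₀ p with hr₀
  have hrp : ∀ i, (r₀ i).Prime := prm hS₀ hp
  have hrinj : Function.Injective r₀ := rr_inj t hpi (fun i => (hp i).2.1) fun i => (hp i).1.2
  obtain ⟨m1, m2, m3⟩ := pre hS₀ hpK hpi (fun i => (hp i).1) (fun i => (hp i).2.1) fun i => rfl
  have hnd : ∀ {g : ℕ}, g ∈ M.primeFactors → g ≠ 2 → (∀ a ∈ K, ¬ g ∣ a) →
      g ∈ Bs M S₀ ∧ g ∉ Vt t S₀ := by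
    intro g hg hg2 hgK
    refine ⟨mem_union_right _ hg, fun h => ?_⟩
    rcases mem_Vt.1 h with h | h
    · exact hg2 h.2
    · refine hgK _ hpK ?_
      rw [Nat.dvd_mod_iff (Nat.dvd_of_mem_primeFactors hg)]
      exact Dvd.dvd.mul_right (dvd_prod_of_mem (fun x => x) h) _
  obtain ⟨hgB, hgV⟩ := hnd hg hg2 hgK
  obtain ⟨hhB, hhV⟩ := hnd hh hh2 hhK
  obtain ⟨-, k1, k2, k3⟩ := hG _ r₀ (S₀ ∪ univ.image p) m1 m2 m3 hrinj (rr_im t)
  have hN1 : ∀ (v : (Vt t S₀ : Finset ℕ)) (l : ι), NR r s r₀ (Sum.inl v) (Sum.inr l) = nr (p l) v :=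
    fun v l => sy_ne r s (hp l).1.2
  have hud : ∀ l : ι, ud s r₀ (Sum.inr l) = uu (p l) := fun l => if_neg (hp l).1.2
  have hwd : ∀ l : ι, wd r r₀ (Sum.inr l) = 1 := fun l => if_neg (hp l).1.2
  have hnr : ∀ (b : ↥(Vt t S₀) → ZMod 2) (a : ZMod 2), (∀ l, ∑ v, b v *
      NR r s r₀ (Sum.inl v) (Sum.inr l) + a * fw (r₀ (Sum.inr l)) = 0) → (∀ v, b v = 0) ∧ a = 0 := by
    intro b a hb
    obtain ⟨h3, h4, h5⟩ := nd_use hM hM0 hN hhB hhV b (a * a0) (a * κ') fun l => by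
      have h6 := hb l
      have h7 : fw (r₀ (Sum.inr l)) = a0 * nr (p l) h + κ' * uu (p l) :=
        hfw (p l) (hp l).1 (hp l).2.2
      simp only [hN1] at h6
      rw [h7] at h6
      rw [← h6]
      ring
    refine ⟨h3, ?_⟩
    rcases ha0 with h6 | h6
    · rw [h6, mul_one] at h4
      exact h4
    · rw [h6, mul_one] at h5
      exact h5
  have hnc : ∀ (b : ↥(Vt t S₀) → ZMod 2) (a : ZMod 2), (∀ l, ∑ v, b v *
      NR r s r₀ (Sum.inr l) (Sum.inl v) + a * fu (r₀ (Sum.inr l)) = 0) → (∀ v, b v = 0) ∧ a = 0 := by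
    intro b a hb
    obtain ⟨h3, h4, h5⟩ := nd_use hM hM0 hN hgB hgV (fun v => b v * wd r r₀ (Sum.inl v)) a
      (∑ v, b v * ud s r₀ (Sum.inl v) + a * κ) fun l => by
      have h6 := hb l
      have h7 : fu (r₀ (Sum.inr l)) = nr (p l) g + κ * uu (p l) :=
        hfu (p l) (hp l).1 (hp l).2.2
      rw [h7] at h6
      have h8 : ∀ v, NR r s r₀ (Sum.inr l) (Sum.inl v) = wd r r₀ (Sum.inl v) * nr (p l) v +
          ud s r₀ (Sum.inl v) * uu (p l) := by
        intro v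
        have h9 := rec_NR r s hrinj hrp (Sum.inr l) (Sum.inl v) (by simp)
        rw [hwd, hud, one_mul, hN1] at h9
        have h10 := z2_add_self (wd r r₀ (Sum.inl v) * nr (p l) v)
        linear_combination h9 - h10
      simp only [h8] at h6
      rw [← h6, add_mul, sum_mul]
      simp only [mul_add, sum_add_distrib, mul_assoc]
      ring
    refine ⟨fun v => ?_, h4⟩
    rcases z2 (wd r r₀ (Sum.inl v)) with h6 | h6
    · obtain ⟨h7, h8⟩ := uniq2 htr hS₀ v h6
      rw [h4, zero_mul, add_zero, sum_eq_single v] at h5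
      · rw [h7, mul_one] at h5
        exact h5
      · intro v' _ hv'
        rcases z2 (wd r r₀ (Sum.inl v')) with h9 | h9
        · exact absurd (h8 v' h9).symm hv'
        · have : b v' * wd r r₀ (Sum.inl v') = 0 := h3 v'
          rw [h9, mul_one] at this
          rw [this, zero_mul]
      · intro h
        exact absurd (mem_univ v) h
    · have : b v * wd r r₀ (Sum.inl v) = 0 := h3 v
      rw [h6, mul_one] at this
      exact this
  refine ⟨Option (Vt t S₀ : Finset ℕ), Option (Vt t S₀ : Finset ℕ), inferInstance, inferInstance,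
    Mt (NR r s r₀) (fun i => fu (r₀ i)) (fun i => fw (r₀ i)) e, vc (wd r r₀) x0,
    vc (fun _ => 1) 0, ?_, rfl, ?_, fun k l => rfl, ?_⟩
  · refine ⟨hwd, fun l => rfl, ?_, ?_, ?_, ?_, ?_⟩
    · intro c
      unfold vc Mt
      rw [sum_ph (fun o => Option.elim o x0 (wd r r₀) *
        Bm (NR r s r₀) (fun i => fu (r₀ i)) (fun i => fw (r₀ i)) e o (ph c)), Fintype.sum_option]
      rcases ph c with _ | j
      · show x0 * e + ∑ i, wd r r₀ i * fu (r₀ i) = 0
        rw [← k3, add_comm]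
        congr 1
        exact sum_congr rfl fun i _ => mul_comm _ _
      · show x0 * fw (r₀ j) + ∑ i, wd r r₀ i * Lm (NR r s r₀) i j = 0
        rw [← k2 j, add_comm]
        congr 1
        exact sum_congr rfl fun i _ => mul_comm _ _
    · intro i
      have h := ev_vc (NR r s r₀) (fun i => fu (r₀ i)) (fun i => fw (r₀ i)) e (fun _ => 1) 0 i
      unfold ev at h
      rw [h]
      rcases ph i with _ | i
      · show ∑ j, fw (r₀ j) * 1 + 0 * e = 0
        rw [zero_mul, add_zero]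
        simp only [mul_one]
        exact k1
      · show Ev (NR r s r₀) (fun _ => 1) i + 0 * fu (r₀ i) = 0
        rw [Pool.Agent.N916.GB.Ev_const, zero_mul, add_zero]
    · intro b hb
      have h := hnr (fun v => b (some v)) (b none) fun l => by
        have h1 := hb l
        rw [Fintype.sum_option] at h1
        rw [← h1, add_comm]
        congr 1
        refine sum_congr rfl fun v _ => ?_
        have h2 : Mt (NR r s r₀) (fun i => fu (r₀ i)) (fun i => fw (r₀ i)) e (Sum.inl (some v))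
            (Sum.inr l) = NR r s r₀ (Sum.inl v) (Sum.inr l) := Lm_ne _ (by simp)
        rw [h2]
      intro r
      rcases r with _ | v
      · exact h.2
      · exact h.1 v
    · intro b hb
      have h := hnc (fun v => b (some v)) (b none) fun l => by
        have h1 := hb l
        rw [Fintype.sum_option] at h1
        rw [← h1, add_comm]
        congr 1
        · exact mul_comm _ _
        · refine sum_congr rfl fun v _ => ?_
          have h2 : Mt (NR r s r₀) (fun i => fu (r₀ i)) (fun i => fw (r₀ i)) e (Sum.inr l)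
            (Sum.inl (some v)) = NR r s r₀ (Sum.inr l) (Sum.inl v) := Lm_ne _ (by simp)
          rw [h2, mul_comm]
      intro r
      rcases r with _ | v
      · exact h.2
      · exact h.1 v
    · intro k l hkl
      have h := rec_NR r s hrinj hrp (Sum.inr k) (Sum.inr l) fun h => hkl (Sum.inr_injective h)
      rw [hwd, hwd, one_mul, one_mul] at h
      rw [← h]
      show Lm (NR r s r₀) (Sum.inr k) (Sum.inr l) + Lm (NR r s r₀) (Sum.inr l) (Sum.inr k) = _
      rw [Lm_ne _ fun h => hkl (Sum.inr_injective h), Lm_ne _ fun h => hkl (Sum.inr_injective h).symm]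
  · rw [Fintype.card_option]
  · intro q hqi hq
    obtain ⟨a1, a2, a3, a4⟩ := two_q (t := t) (r := r) (s := s) hM hM0 hS₀ hp hpi hqi hq
    obtain ⟨n1, n2, n3⟩ := pre hS₀ hpK hqi (fun i => (hq i).1) (fun i => (hq i).2.1)
      fun i => (hq i).2.2.1
    obtain ⟨b1, -⟩ := hG _ (rr t S₀ q) (S₀ ∪ univ.image q) n1 n2 n3
      (rr_inj t hqi (fun i => (hq i).2.1) fun i => (hq i).1.2) (rr_im t)
    rw [b1, a1]
    have c1 : (fun i => fu (rr t S₀ q i)) = fun i => fu (r₀ i) := by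
      funext i
      rcases i with v | k
      · rfl
      · show fu (q k) = fu (p k)
        rw [hfu _ (hq k).1 (a2 k), hfu _ (hp k).1 (hp k).2.2, a3 k g hgB, a4 k]
    have c2 : (fun i => fw (rr t S₀ q i)) = fun i => fw (r₀ i) := by
      funext i
      rcases i with v | k
      · rfl
      · show fw (q k) = fw (p k)
        rw [hfw _ (hq k).1 (a2 k), hfw _ (hp k).1 (hp k).2.2, a3 k h hhB, a4 k]
    rw [c1, c2, Gc_Kb]

section
variable {M : ℕ} {s' : ℤ} {k c : ℕ} {t : Bool} {r s : ZMod 2}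

theorem mJ (hM : 120 ∣ M) (hM0 : 0 < M) {P : ℤ → Prop} (hP : Per 15 P) {s' : ℤ} {k c : ℕ}
    {n : ℕ} : n % M ∈ KK M P s' k c ↔ n % 4 = c ∧ P (s' * (k * n : ℕ)) :=
  mem_KK hM0 ((by norm_num : 4 ∣ 120).trans hM) ((by norm_num : 15 ∣ 120).trans hM) hP

theorem KJ {P : ℤ → Prop} {s' : ℤ} {k c : ℕ} {a : ℕ} (h : a ∈ KK M P s' k c) :
    a % 4 = c ∧ P (s' * (k * a : ℕ)) := (mem_filter.1 h).2

theorem KKm {P : ℤ → Prop} {s' : ℤ} {k c : ℕ} {a : ℕ} (h : a < M) (h4 : a % 4 = c)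
    (hP : P (s' * (k * a : ℕ))) : a ∈ KK M P s' k c := by
  unfold KK
  rw [mem_filter, mem_range]
  exact ⟨h, h4, hP⟩

theorem pfJ (hM : 120 ∣ M) (hM0 : 0 < M) {g : ℕ} (hg : g = 3 ∨ g = 5) : g ∈ M.primeFactors := by
  rw [Nat.mem_primeFactors]
  rcases hg with rfl | rfl
  · exact ⟨by norm_num, (by norm_num : 3 ∣ 120).trans hM, hM0.ne'⟩
  · exact ⟨by norm_num, (by norm_num : 5 ∣ 120).trans hM, hM0.ne'⟩

/-- **class A** -/
theorem jA (hM : 120 ∣ M) (hM0 : 0 < M) (H : PM s' k c t r s) (hs : s' = -1) :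
    J15 M (KK M (fun m => ¬ B3 m ∧ ¬ B5 m) s' k c) t r s (G15 s' k) := by
  refine j_a ((by norm_num : 8 ∣ 120).trans hM) hM0 H.tr ?_
  intro V _ ρ S hS hK hne hρ him
  obtain ⟨h4, h3, h5⟩ := (mJ hM hM0 (per3.not.and per5.not)).1 hK
  obtain ⟨e1, e2, e3⟩ := prodS hS
  have D := H.dt hS h4 hρ him
  obtain ⟨i, hi⟩ := ne_V hne him
  haveI : Nonempty V := ⟨i⟩
  have h0 := H.neg' e3 hs
  refine ⟨?_, fun j => ?_⟩
  · unfold G15
    rw [sgA D.ix D.sq ⟨i, dvd_m hi s' k⟩ h0 h3 h5]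
    exact Gv_congr D.hlm
  · have := colx D.ix D.sq j
    rw [if_neg (by omega), D.hlm, D.hwx, zero_mul, add_zero] at this
    exact this

/-- **class B** -/
theorem jB (hM : 120 ∣ M) (hM0 : 0 < M) (H : PM s' k c t r s) (hs : s' = 1) :
    J15 M (KK M (fun m => B3 m ∧ ¬ B5 m) s' k c) t r s (G15 s' k) := by
  refine j_b (t := t) (r := r) (s := s) (g := 3) (h := 3) (fu := fun p => ra p (-3))
    (fw := fun p => if p = 2 then s else uu p) (e := 1) (x0 := 1) (κ := 1) (a0 := 0) (κ' := 1)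
    ((by norm_num : 8 ∣ 120).trans hM) hM0 H.tr (pfJ hM hM0 (Or.inl rfl)) (by norm_num)
    (pfJ hM hM0 (Or.inl rfl)) (by norm_num) (fun a ha => not3 H (KJ ha).2.1)
    (fun a ha => not3 H (KJ ha).2.1) (hf3 ((by norm_num : 3 ∣ 120).trans hM)) (fun p hp _ => by
      rw [if_neg hp.2]; ring) (Or.inr rfl) ?_
  intro V _ ρ S hS hK hne hρ him
  obtain ⟨h4, h3, h5⟩ := (mJ hM hM0 (per3.and per5.not)).1 hK
  obtain ⟨e1, e2, e3⟩ := prodS hS
  have D := H.dt hS h4 hρ him
  obtain ⟨i, hi⟩ := ne_V hne him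
  haveI : Nonempty V := ⟨i⟩
  have h0 := H.pos e3 hs
  have hT := torx D.ix D.sq
  have hU := tory D.ix D.sq
  refine ⟨?_, ?_, fun j => ?_, ?_⟩
  · unfold G15
    rw [sgB D.ix D.sq h0 h3 h5, Kb_congr D.hlm, D.hua]
    rfl
  · have := hU.sgn h0
    rw [add_zero, D.hua] at this
    simpa only [mul_one] using this
  · have := colx D.ix D.sq j
    rw [if_pos h0, D.hlm, D.hwx, D.hua] at this
    exact this
  · have := hT.at3 h3
    rw [add_zero, if_pos h0, D.hwx] at this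
    rw [mul_one]
    exact this

/-- **class C** -/
theorem jC (hM : 120 ∣ M) (hM0 : 0 < M) (H : PM s' k c t r s) (hs : s' = 1) :
    J15 M (KK M (fun m => ¬ B3 m ∧ B5 m) s' k c) t r s (G15 s' k) := by
  refine j_b (t := t) (r := r) (s := s) (g := 5) (h := 5) (fu := fun p => ra p 5)
    (fw := fun p => if p = 2 then s else uu p) (e := 0) (x0 := 1) (κ := 0) (a0 := 0) (κ' := 1)
    ((by norm_num : 8 ∣ 120).trans hM) hM0 H.tr (pfJ hM hM0 (Or.inr rfl)) (by norm_num)
    (pfJ hM hM0 (Or.inr rfl)) (by norm_num) (fun a ha => not5 H (KJ ha).2.2)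
    (fun a ha => not5 H (KJ ha).2.2) (hf5 ((by norm_num : 5 ∣ 120).trans hM)) (fun p hp _ => by
      rw [if_neg hp.2]; ring) (Or.inr rfl) ?_
  intro V _ ρ S hS hK hne hρ him
  obtain ⟨h4, h3, h5⟩ := (mJ hM hM0 (per3.not.and per5)).1 hK
  obtain ⟨e1, e2, e3⟩ := prodS hS
  have D := H.dt hS h4 hρ him
  obtain ⟨i, hi⟩ := ne_V hne him
  haveI : Nonempty V := ⟨i⟩
  have h0 := H.pos e3 hs
  have hT := torx D.ix D.sq
  have hU := tory D.ix D.sq
  refine ⟨?_, ?_, fun j => ?_, ?_⟩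
  · unfold G15
    rw [sgC D.ix D.sq h0 h3 h5, Kb_congr D.hlm, D.hua]
    rfl
  · have := hU.sgn h0
    rw [add_zero, D.hua] at this
    simpa only [mul_one] using this
  · have := colx D.ix D.sq j
    rw [if_pos h0, D.hlm, D.hwx, D.hua] at this
    exact this
  · have := hT.at5 h5
    rw [add_zero, sm0, add_zero, D.hwx] at this
    rw [mul_zero, add_zero]
    exact this

/-- **class D** -/
theorem jD (hM : 120 ∣ M) (hM0 : 0 < M) (H : PM s' k c t r s) (hs : s' = -1) :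
    J15 M (KK M (fun m => B3 m ∧ B5 m) s' k c) t r s (G15 s' k) := by
  refine j_b (t := t) (r := r) (s := s) (g := 3) (h := 5) (fu := fun p => ra p (-3))
    (fw := fun p => if p = 2 then r else nr p 5) (e := 1) (x0 := 0) (κ := 1) (a0 := 1) (κ' := 0)
    ((by norm_num : 8 ∣ 120).trans hM) hM0 H.tr (pfJ hM hM0 (Or.inl rfl)) (by norm_num)
    (pfJ hM hM0 (Or.inr rfl)) (by norm_num) (fun a ha => not3 H (KJ ha).2.1)
    (fun a ha => not5 H (KJ ha).2.2) (hf3 ((by norm_num : 3 ∣ 120).trans hM)) (fun p hp _ => by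
      rw [if_neg hp.2]; ring) (Or.inl rfl) ?_
  intro V _ ρ S hS hK hne hρ him
  obtain ⟨h4, h3, h5⟩ := (mJ hM hM0 (per3.and per5)).1 hK
  obtain ⟨e1, e2, e3⟩ := prodS hS
  have D := H.dt hS h4 hρ him
  obtain ⟨i, hi⟩ := ne_V hne him
  haveI : Nonempty V := ⟨i⟩
  have h0 := H.neg' e3 hs
  have hT := torx D.ix D.sq
  have hU := tory D.ix D.sq
  have h5S : 5 ∉ S := by
    intro h
    have h6 := dvd_m h s' k
    unfold B5 at h5
    push_cast at h5 h6
    omega
  have hv := D.hv5 h5S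
  refine ⟨?_, ?_, fun j => ?_, ?_⟩
  · unfold G15
    rw [sgD D.ix D.sq ⟨i, dvd_m hi s' k⟩ h0 h3 h5, Kb_congr D.hlm, hv]
    rfl
  · have := hU.at5 h5
    rw [add_zero, sm0, zero_add, hv] at this
    simpa only [mul_one] using this
  · have := colx D.ix D.sq j
    rw [if_neg (by omega), D.hlm, D.hwx, zero_mul] at this
    rw [zero_mul]
    exact this
  · have := hT.at3 h3
    rw [add_zero, if_neg (by omega), add_zero, D.hwx] at this
    rw [zero_mul, add_zero]
    exact this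

end

/-- **the level 15 side**, every modulus divisible by `120` -/
theorem s15M {M : ℕ} (hM : 120 ∣ M) (hM0 : 0 < M) {s' : ℤ} {k c : ℕ} {t : Bool} {r s : ZMod 2}
    (H : PM s' k c t r s) (K : Finset ℕ)
    (hK : ∀ a ∈ K, a % 4 = c ∧ f15 (s' * (k * a : ℕ)) = true) : J15 M K t r s (G15 s' k) := by
  have ha : ∀ a ∈ K, a < M → 0 < a := by
    intro a ha h
    have h1 := (hK a ha).1
    rcases H.hc with h2 | h2 <;> omega
  rcases H.hs with h | h
  · refine J15.mono hM0 ?_ (J15.union (jB hM hM0 H h) (jC hM hM0 H h))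
    intro a ha1 ha2
    have h1 := ha a ha1 ha2
    obtain ⟨h3, h4⟩ := hK a ha1
    rw [f15_pos (H.pos h1 h)] at h4
    rw [mem_union]
    rcases h4 with h4 | h4
    · exact Or.inl (KKm ha2 h3 h4)
    · exact Or.inr (KKm ha2 h3 h4)
  · refine J15.mono hM0 ?_ (J15.union (jA hM hM0 H h) (jD hM hM0 H h))
    intro a ha1 ha2
    have h1 := ha a ha1 ha2
    obtain ⟨h3, h4⟩ := hK a ha1
    rw [f15_neg (H.neg' h1 h)] at h4
    rw [mem_union]
    rcases h4 with h4 | h4
    · exact Or.inl (KKm ha2 h3 h4)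
    · exact Or.inr (KKm ha2 h3 h4)

/-- **the level 15 side** -/
theorem s15 : S15 := fun H K hK => s15M (by norm_num) (by norm_num) H K hK

end Pool.Agent.N972.JT
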