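import Pool.Agent.N972.JT.Wt
import Pool.Agent.N972.JT.Four

/-!
# JT: the densities of the classes of the four curves
-/

set_option autoImplicit false
set_option linter.all false

open scoped Classical

namespace Pool.Agent.N972.JT

open Finset Filter
open Pool.Agent.N855.GF (dl dl_pos)
open Pool.Agent.N919.BS (NN NS NF NS_eq NF_eq HG Rt17)
open Pool.Agent.N809.PQ (B5 C7)
open Pool.Agent.N916.PQ.L21 (quo lim_div)
open Pool.Agent.N975.JT (js_iff)
open Pool.Agent.N972.JT.Wt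

/-- `3` ramified, `5` not split, `7` not inert, and `2` inert or ramified with `d` even -/
def T5 (d : ℤ) : Prop := T4 d ∧ (d % 8 = 5 ∨ d % 2 = 0)

/-- the residue condition modulo `1785` for `d = - k n` -/
def rr (k b : ℕ) : Bool := decide (b % 3 = 0 ∧ ((k * b) % 5 = 0 ∨ (k * b) % 5 = 2 ∨ (k * b) % 5 = 3) ∧
  ((k * b) % 7 = 0 ∨ (k * b) % 7 = 3 ∨ (k * b) % 7 = 5 ∨ (k * b) % 7 = 6) ∧
  ((k * b) % 17 = 0 ∨ (k * b) % 17 = 3 ∨ (k * b) % 17 = 5 ∨ (k * b) % 17 = 6 ∨ (k * b) % 17 = 7 ∨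
    (k * b) % 17 = 10 ∨ (k * b) % 17 = 11 ∨ (k * b) % 17 = 12 ∨ (k * b) % 17 = 14))

theorem rr1 : ∑ b ∈ (range 1785).filter (fun b => rr 1 b = true), w b = 114912 := by
  decide +kernel

theorem rr2 : ∑ b ∈ (range 1785).filter (fun b => rr 2 b = true), w b = 114912 := by
  decide +kernel

theorem rrT : ∑ b ∈ (range 1785).filter (fun b => (fun _ : ℕ => true) b = true), w b = 2654208 := by
  decide +kernel

theorem rr_iff {k n : ℕ} (hk : k = 1 ∨ k = 2) (hn : 0 < n) :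
    rr k (n % 1785) = true ↔ (T4 (-1 * ((k * n : ℕ) : ℤ)) ∧ Rt17 (-1 * ((k * n : ℕ) : ℤ))) := by
  have h0 : -1 * ((k * n : ℕ) : ℤ) < 0 := by
    rcases hk with rfl | rfl <;> push_cast <;> omega
  have e3 : (n % 1785) % 3 = 0 ↔ (-1 * ((k * n : ℕ) : ℤ)) % 3 = 0 := by
    rcases hk with rfl | rfl <;> push_cast <;> omega
  have e5 : ((k * (n % 1785)) % 5 = 0 ∨ (k * (n % 1785)) % 5 = 2 ∨ (k * (n % 1785)) % 5 = 3) ↔
      ¬ B5 (-1 * ((k * n : ℕ) : ℤ)) := by
    unfold Pool.Agent.N809.PQ.B5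
    rcases hk with rfl | rfl <;> push_cast <;> omega
  have e7 : ((k * (n % 1785)) % 7 = 0 ∨ (k * (n % 1785)) % 7 = 3 ∨ (k * (n % 1785)) % 7 = 5 ∨
      (k * (n % 1785)) % 7 = 6) ↔ ¬ C7 (-1 * ((k * n : ℕ) : ℤ)) := by
    unfold Pool.Agent.N809.PQ.C7
    have h : (k * (n % 1785)) % 7 = (k * n) % 7 := by
      rcases hk with rfl | rfl <;> omega
    rw [h]
    generalize k * n = a
    have h7 : a % 7 < 7 := Nat.mod_lt _ (by norm_num)
    interval_cases h' : a % 7 <;> omega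
  have e17 : ((k * (n % 1785)) % 17 = 0 ∨ (k * (n % 1785)) % 17 = 3 ∨ (k * (n % 1785)) % 17 = 5 ∨
      (k * (n % 1785)) % 17 = 6 ∨ (k * (n % 1785)) % 17 = 7 ∨ (k * (n % 1785)) % 17 = 10 ∨
      (k * (n % 1785)) % 17 = 11 ∨ (k * (n % 1785)) % 17 = 12 ∨ (k * (n % 1785)) % 17 = 14) ↔
      Rt17 (-1 * ((k * n : ℕ) : ℤ)) := by
    unfold Pool.Agent.N919.BS.Rt17
    rw [Ne, js_iff]
    have h : (k * (n % 1785)) % 17 = (k * n) % 17 := by
      rcases hk with rfl | rfl <;> omega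
    rw [h]
    have h00 : ¬ 0 < -1 * ((k * n : ℕ) : ℤ) := by omega
    simp only [h0, h00, false_and, false_or, true_and]
    generalize k * n = a
    have h17 : a % 17 < 17 := Nat.mod_lt _ (by norm_num)
    interval_cases h' : a % 17 <;> omega
  unfold rr T4
  rw [decide_eq_true_iff, e3, e5, e7, e17]
  constructor
  · rintro ⟨h1, h2, h3, h4⟩
    exact ⟨⟨h0, h1, h2, h3⟩, h4⟩
  · rintro ⟨⟨-, h1, h2, h3⟩, h4⟩
    exact ⟨h1, h2, h3, h4⟩

/-- the class of the four curves -/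
def PF (d : ℤ) : Prop := T5 d ∧ Rt17 d

/-- the class without level 24 -/
def PE (d : ℤ) : Prop := T4 d ∧ Rt17 d

theorem nn_pos {P : ℤ → Prop} (hP : ∀ d, P d → d < 0) (k c Y : ℕ) : NN P 1 k c Y = 0 := by
  unfold Pool.Agent.N919.BS.NN
  rw [Finset.card_eq_zero]
  apply Finset.eq_empty_of_forall_notMem
  intro M hM
  simp only [mem_filter] at hM
  have := hP _ hM.2.2.2
  have h2 : (0 : ℤ) ≤ ((k * M : ℕ) : ℤ) := Int.natCast_nonneg _
  omega

theorem card_or {s : Finset ℕ} {p q q' : ℕ → Prop} {_ : DecidablePred p} {_ : DecidablePred q}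
    {_ : DecidablePred q'} (h : ∀ x ∈ s, p x ↔ (q x ∨ q' x)) (h' : ∀ x, q x → ¬ q' x) :
    (s.filter p).card = (s.filter q).card + (s.filter q').card := by
  rw [← Finset.card_union_of_disjoint]
  · congr 1
    ext x
    simp only [mem_filter, mem_union]
    constructor
    · rintro ⟨h1, h2⟩
      rcases (h x h1).1 h2 with h3 | h3
      · exact Or.inl ⟨h1, h3⟩
      · exact Or.inr ⟨h1, h3⟩
    · rintro (⟨h1, h2⟩ | ⟨h1, h2⟩)
      · exact ⟨h1, (h x h1).2 (Or.inl h2)⟩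
      · exact ⟨h1, (h x h1).2 (Or.inr h2)⟩
  · rw [Finset.disjoint_left]
    intro x hx hx'
    exact h' x (mem_filter.1 hx).2 (mem_filter.1 hx').2

theorem nn_two {P : ℤ → Prop} {k c : ℕ} {s' : ℤ} {p : ℕ → Bool} (hc : c = 1 ∨ c = 3) (Y : ℕ)
    (hP : ∀ n : ℕ, 0 < n → n % 4 = c → (P (s' * ((k * n : ℕ) : ℤ)) ↔ p (n % 1785) = true)) :
    NN P s' k c Y = CC c p Y + CC (c + 4) p Y := by
  unfold Pool.Agent.N919.BS.NN CC
  apply card_or
  · intro n hn
    rw [mem_Icc] at hn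
    constructor
    · rintro ⟨h1, h2, h3⟩
      have h4 := (hP n hn.1 h2).1 h3
      rcases (by omega : n % 8 = c ∨ n % 8 = c + 4) with h | h
      · exact Or.inl ⟨h1, h, h4⟩
      · exact Or.inr ⟨h1, h, h4⟩
    · rintro (⟨h1, h2, h3⟩ | ⟨h1, h2, h3⟩)
      · have h4 : n % 4 = c := by omega
        exact ⟨h1, h4, (hP n hn.1 h4).2 h3⟩
      · have h4 : n % 4 = c := by omega
        exact ⟨h1, h4, (hP n hn.1 h4).2 h3⟩
  · rintro n ⟨-, h1, -⟩ ⟨-, h2, -⟩
    omega

theorem nn_one {P : ℤ → Prop} {k c c' : ℕ} {s' : ℤ} {p : ℕ → Bool} (Y : ℕ) (hc : c' % 4 = c)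
    (hP : ∀ n : ℕ, 0 < n → n % 4 = c →
      (P (s' * ((k * n : ℕ) : ℤ)) ↔ n % 8 = c' ∧ p (n % 1785) = true)) :
    NN P s' k c Y = CC c' p Y := by
  unfold Pool.Agent.N919.BS.NN CC
  have key : ∀ {s : Finset ℕ} {p q : ℕ → Prop} {_ : DecidablePred p} {_ : DecidablePred q}
      (h : ∀ x ∈ s, p x ↔ q x), (s.filter p).card = (s.filter q).card := by
    intro s p q _ _ h
    congr 1
    ext x
    simp only [mem_filter]
    exact and_congr_right fun hx => h x hx
  apply key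
  intro n hn
  rw [mem_Icc] at hn
  constructor
  · rintro ⟨h1, h2, h3⟩
    obtain ⟨h4, h5⟩ := (hP n hn.1 h2).1 h3
    exact ⟨h1, h4, h5⟩
  · rintro ⟨h1, h2, h3⟩
    have h4 : n % 4 = c := by omega
    exact ⟨h1, h4, (hP n hn.1 h4).2 ⟨h2, h3⟩⟩

theorem nn_zero {P : ℤ → Prop} {k c : ℕ} {s' : ℤ} (Y : ℕ)
    (hP : ∀ n : ℕ, 0 < n → n % 4 = c → ¬ P (s' * ((k * n : ℕ) : ℤ))) : NN P s' k c Y = 0 := by
  unfold Pool.Agent.N919.BS.NN
  rw [Finset.card_eq_zero]
  apply Finset.eq_empty_of_forall_notMem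
  intro M hM
  simp only [mem_filter, mem_Icc] at hM
  exact hP M hM.1.1 hM.2.2.1 hM.2.2.2

/-- the unit -/
noncomputable def LF : ℝ := (114912 : ℕ) / 1785 * dl 14280

/-- the unit of all the numbers -/
noncomputable def LT : ℝ := (2654208 : ℕ) / 1785 * dl 14280

theorem cF1 {c : ℕ} (hc : c < 8) (h2 : c % 2 = 1) :
    Tendsto (fun Y : ℕ => (CC c (rr 1) Y : ℝ) / Y) atTop (nhds LF) := cc_lim hc h2 _ rr1

theorem cF2 {c : ℕ} (hc : c < 8) (h2 : c % 2 = 1) :
    Tendsto (fun Y : ℕ => (CC c (rr 2) Y : ℝ) / Y) atTop (nhds LF) := cc_lim hc h2 _ rr2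

theorem cT {c : ℕ} (hc : c < 8) (h2 : c % 2 = 1) :
    Tendsto (fun Y : ℕ => (CC c (fun _ => true) Y : ℝ) / Y) atTop (nhds LT) := cc_lim hc h2 _ rrT

theorem add_lim {a b : ℕ → ℕ} {x y : ℝ} (ha : Tendsto (fun Y : ℕ => (a Y : ℝ) / Y) atTop (nhds x))
    (hb : Tendsto (fun Y : ℕ => (b Y : ℝ) / Y) atTop (nhds y)) :
    Tendsto (fun Y : ℕ => ((a Y + b Y : ℕ) : ℝ) / Y) atTop (nhds (x + y)) := by
  refine (ha.add hb).congr fun Y => ?_
  push_cast
  ring

/-- the limits in the eight classes -/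
theorem gen_NS {P : ℤ → Prop} {L : ℤ → ℕ → ℕ → ℝ}
    (h : ∀ s k c, (s = 1 ∨ s = -1) → (k = 1 ∨ k = 2) → (c = 1 ∨ c = 3) →
      Tendsto (fun Y : ℕ => (NN P s k c Y : ℝ) / Y) atTop (nhds (L s k c))) :
    Tendsto (fun X : ℕ => (NS P X : ℝ) / X) atTop
      (nhds (L 1 1 1 + L 1 1 3 + L 1 2 1 * (1 / (2 : ℕ)) + L 1 2 3 * (1 / (2 : ℕ)) +
        (L (-1) 1 1 + L (-1) 1 3 + L (-1) 2 1 * (1 / (2 : ℕ)) + L (-1) 2 3 * (1 / (2 : ℕ))))) := by
  have a1 := h 1 1 1 (Or.inl rfl) (Or.inl rfl) (Or.inl rfl)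
  have a2 := h 1 1 3 (Or.inl rfl) (Or.inl rfl) (Or.inr rfl)
  have a3 := lim_div (by norm_num : 0 < 2) (h 1 2 1 (Or.inl rfl) (Or.inr rfl) (Or.inl rfl))
  have a4 := lim_div (by norm_num : 0 < 2) (h 1 2 3 (Or.inl rfl) (Or.inr rfl) (Or.inr rfl))
  have b1 := h (-1) 1 1 (Or.inr rfl) (Or.inl rfl) (Or.inl rfl)
  have b2 := h (-1) 1 3 (Or.inr rfl) (Or.inl rfl) (Or.inr rfl)
  have b3 := lim_div (by norm_num : 0 < 2) (h (-1) 2 1 (Or.inr rfl) (Or.inr rfl) (Or.inl rfl))
  have b4 := lim_div (by norm_num : 0 < 2) (h (-1) 2 3 (Or.inr rfl) (Or.inr rfl) (Or.inr rfl))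
  have h := (((a1.add a2).add a3).add a4).add (((b1.add b2).add b3).add b4)
  refine h.congr fun X => ?_
  rw [NS_eq]
  push_cast
  ring

theorem gen_NF {P : ℤ → Prop} {L : ℤ → ℕ → ℕ → ℝ}
    (h : ∀ s k c, (s = 1 ∨ s = -1) → (k = 1 ∨ k = 2) → (c = 1 ∨ c = 3) →
      Tendsto (fun Y : ℕ => (NN P s k c Y : ℝ) / Y) atTop (nhds (L s k c))) :
    Tendsto (fun X : ℕ => (NF P X : ℝ) / X) atTop
      (nhds (L 1 1 1 + L 1 1 3 * (1 / (4 : ℕ)) + L 1 2 1 * (1 / (8 : ℕ)) + L 1 2 3 * (1 / (8 : ℕ)) +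
        (L (-1) 1 1 * (1 / (4 : ℕ)) + L (-1) 1 3 + L (-1) 2 1 * (1 / (8 : ℕ)) +
          L (-1) 2 3 * (1 / (8 : ℕ))))) := by
  have a1 := h 1 1 1 (Or.inl rfl) (Or.inl rfl) (Or.inl rfl)
  have a2 := lim_div (by norm_num : 0 < 4) (h 1 1 3 (Or.inl rfl) (Or.inl rfl) (Or.inr rfl))
  have a3 := lim_div (by norm_num : 0 < 8) (h 1 2 1 (Or.inl rfl) (Or.inr rfl) (Or.inl rfl))
  have a4 := lim_div (by norm_num : 0 < 8) (h 1 2 3 (Or.inl rfl) (Or.inr rfl) (Or.inr rfl))
  have b1 := lim_div (by norm_num : 0 < 4) (h (-1) 1 1 (Or.inr rfl) (Or.inl rfl) (Or.inl rfl))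
  have b2 := h (-1) 1 3 (Or.inr rfl) (Or.inl rfl) (Or.inr rfl)
  have b3 := lim_div (by norm_num : 0 < 8) (h (-1) 2 1 (Or.inr rfl) (Or.inr rfl) (Or.inl rfl))
  have b4 := lim_div (by norm_num : 0 < 8) (h (-1) 2 3 (Or.inr rfl) (Or.inr rfl) (Or.inr rfl))
  have h := (((a1.add a2).add a3).add a4).add (((b1.add b2).add b3).add b4)
  refine h.congr fun X => ?_
  rw [NF_eq]
  push_cast
  ring

/-- the limits of all the squarefree numbers -/
theorem limT : ∀ s k c, (s = 1 ∨ s = -1) → (k = 1 ∨ k = 2) → (c = 1 ∨ c = 3) →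
    Tendsto (fun Y : ℕ => (NN (fun _ => True) s k c Y : ℝ) / Y) atTop
      (nhds ((fun _ _ _ => LT + LT : ℤ → ℕ → ℕ → ℝ) s k c)) := by
  intro s k c hs hk hc
  have e : ∀ Y, NN (fun _ => True) s k c Y = CC c (fun _ => true) Y + CC (c + 4) (fun _ => true) Y :=
    fun Y => nn_two hc Y fun n _ _ => by simp
  simp only [e]
  rcases hc with rfl | rfl
  · exact add_lim (cT (by norm_num) (by norm_num)) (cT (by norm_num) (by norm_num))
  · exact add_lim (cT (by norm_num) (by norm_num)) (cT (by norm_num) (by norm_num))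

/-- the limits of the class `PE` -/
theorem limE : ∀ s k c, (s = 1 ∨ s = -1) → (k = 1 ∨ k = 2) → (c = 1 ∨ c = 3) →
    Tendsto (fun Y : ℕ => (NN PE s k c Y : ℝ) / Y) atTop
      (nhds ((fun s _ _ => if s = 1 then 0 else LF + LF : ℤ → ℕ → ℕ → ℝ) s k c)) := by
  intro s k c hs hk hc
  rcases hs with rfl | rfl
  · simp only [nn_pos (P := PE) (fun d h => h.1.1), Nat.cast_zero, zero_div, if_true]
    exact tendsto_const_nhds
  · have e : ∀ Y, NN PE (-1) k c Y = CC c (rr k) Y + CC (c + 4) (rr k) Y :=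
      fun Y => nn_two hc Y fun n hn _ => (rr_iff hk hn).symm
    simp only [e]
    rw [if_neg (by norm_num)]
    rcases hk with rfl | rfl
    · rcases hc with rfl | rfl
      · exact add_lim (cF1 (by norm_num) (by norm_num)) (cF1 (by norm_num) (by norm_num))
      · exact add_lim (cF1 (by norm_num) (by norm_num)) (cF1 (by norm_num) (by norm_num))
    · rcases hc with rfl | rfl
      · exact add_lim (cF2 (by norm_num) (by norm_num)) (cF2 (by norm_num) (by norm_num))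
      · exact add_lim (cF2 (by norm_num) (by norm_num)) (cF2 (by norm_num) (by norm_num))

/-- the limits of the class `PF` -/
theorem limF : ∀ s k c, (s = 1 ∨ s = -1) → (k = 1 ∨ k = 2) → (c = 1 ∨ c = 3) →
    Tendsto (fun Y : ℕ => (NN PF s k c Y : ℝ) / Y) atTop
      (nhds ((fun s k c => if s = 1 then 0 else if k = 2 then LF + LF else if c = 3 then LF else 0 :
        ℤ → ℕ → ℕ → ℝ) s k c)) := by
  intro s k c hs hk hc
  rcases hs with rfl | rfl
  · simp only [nn_pos (P := PF) (fun d h => h.1.1.1), Nat.cast_zero, zero_div, if_true]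
    exact tendsto_const_nhds
  · simp only [(by norm_num : (-1 : ℤ) ≠ 1), if_false]
    rcases hk with rfl | rfl
    · rcases hc with rfl | rfl
      · have e : ∀ Y, NN PF (-1) 1 1 Y = 0 := fun Y => nn_zero Y fun n hn h4 h => by
          have := h.1.2
          push_cast at this
          omega
        simp only [e, Nat.cast_zero, zero_div]
        norm_num
      · have e : ∀ Y, NN PF (-1) 1 3 Y = CC 3 (rr 1) Y := fun Y =>
          nn_one Y (by norm_num) fun n hn h4 => by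
            rw [rr_iff (Or.inl rfl) hn]
            unfold PF T5
            have e8 : ((-1 * ((1 * n : ℕ) : ℤ)) % 8 = 5 ∨ (-1 * ((1 * n : ℕ) : ℤ)) % 2 = 0) ↔
                n % 8 = 3 := by
              push_cast
              omega
            rw [e8]
            tauto
        simp only [e]
        simpa using cF1 (c := 3) (by norm_num) (by norm_num)
    · have e : ∀ Y, NN PF (-1) 2 c Y = CC c (rr 2) Y + CC (c + 4) (rr 2) Y :=
        fun Y => nn_two hc Y fun n hn _ => by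
          rw [rr_iff (Or.inr rfl) hn]
          unfold PF T5
          have e8 : ((-1 * ((2 * n : ℕ) : ℤ)) % 8 = 5 ∨ (-1 * ((2 * n : ℕ) : ℤ)) % 2 = 0) := by
            push_cast
            omega
          tauto
      simp only [e, if_true]
      rcases hc with rfl | rfl
      · exact add_lim (cF2 (by norm_num) (by norm_num)) (cF2 (by norm_num) (by norm_num))
      · exact add_lim (cF2 (by norm_num) (by norm_num)) (cF2 (by norm_num) (by norm_num))

/-- **the densities of the classes** -/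
theorem dens_PE_NS : Tendsto (fun X : ℕ => (NS PE X : ℝ) / (NS (fun _ => True) X : ℝ)) atTop
    (nhds (133 / 6144)) := by
  have hd : 0 < dl 14280 := dl_pos (by norm_num)
  refine quo (gen_NS limE) (gen_NS limT) ?_ ?_
  · unfold LT
    positivity
  · unfold LT LF
    norm_num
    field_simp
    norm_num

theorem dens_PE_NF : Tendsto (fun X : ℕ => (NF PE X : ℝ) / (NF (fun _ => True) X : ℝ)) atTop
    (nhds (133 / 6144)) := by
  have hd : 0 < dl 14280 := dl_pos (by norm_num)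
  refine quo (gen_NF limE) (gen_NF limT) ?_ ?_
  · unfold LT
    positivity
  · unfold LT LF
    norm_num
    field_simp
    norm_num

theorem dens_PF_NS : Tendsto (fun X : ℕ => (NS PF X : ℝ) / (NS (fun _ => True) X : ℝ)) atTop
    (nhds (133 / 12288)) := by
  have hd : 0 < dl 14280 := dl_pos (by norm_num)
  refine quo (gen_NS limF) (gen_NS limT) ?_ ?_
  · unfold LT
    positivity
  · unfold LT LF
    norm_num
    field_simp
    norm_num

theorem dens_PF_NF : Tendsto (fun X : ℕ => (NF PF X : ℝ) / (NF (fun _ => True) X : ℝ)) atTop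
    (nhds (133 / 12288)) := by
  have hd : 0 < dl 14280 := dl_pos (by norm_num)
  refine quo (gen_NF limF) (gen_NF limT) ?_ ?_
  · unfold LT
    positivity
  · unfold LT LF
    norm_num
    field_simp
    norm_num

/-! ### the negative `d`, level 17 -/

/-- the residue condition modulo `17` for `d = - k n` -/
def rN (k b : ℕ) : Bool := decide ((k * b) % 17 = 0 ∨ (k * b) % 17 = 3 ∨ (k * b) % 17 = 5 ∨
    (k * b) % 17 = 6 ∨ (k * b) % 17 = 7 ∨
    (k * b) % 17 = 10 ∨ (k * b) % 17 = 11 ∨ (k * b) % 17 = 12 ∨ (k * b) % 17 = 14)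

theorem rN1 : ∑ b ∈ (range 1785).filter (fun b => rN 1 b = true), w b = 1400832 := by
  decide +kernel

theorem rN2 : ∑ b ∈ (range 1785).filter (fun b => rN 2 b = true), w b = 1400832 := by
  decide +kernel

/-- the negative `d` with root number `+ 1` at level 17 -/
def PN (d : ℤ) : Prop := d < 0 ∧ Rt17 d

theorem rN_iff {k n : ℕ} (hk : k = 1 ∨ k = 2) (hn : 0 < n) :
    rN k (n % 1785) = true ↔ PN (-1 * ((k * n : ℕ) : ℤ)) := by
  have h0 : -1 * ((k * n : ℕ) : ℤ) < 0 := by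
    rcases hk with rfl | rfl <;> push_cast <;> omega
  have e17 : ((k * (n % 1785)) % 17 = 0 ∨ (k * (n % 1785)) % 17 = 3 ∨ (k * (n % 1785)) % 17 = 5 ∨
      (k * (n % 1785)) % 17 = 6 ∨ (k * (n % 1785)) % 17 = 7 ∨ (k * (n % 1785)) % 17 = 10 ∨
      (k * (n % 1785)) % 17 = 11 ∨ (k * (n % 1785)) % 17 = 12 ∨ (k * (n % 1785)) % 17 = 14) ↔
      Rt17 (-1 * ((k * n : ℕ) : ℤ)) := by
    unfold Pool.Agent.N919.BS.Rt17
    rw [Ne, js_iff]
    have h : (k * (n % 1785)) % 17 = (k * n) % 17 := by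
      rcases hk with rfl | rfl <;> omega
    rw [h]
    have h00 : ¬ 0 < -1 * ((k * n : ℕ) : ℤ) := by omega
    simp only [h0, h00, false_and, false_or, true_and]
    generalize k * n = a
    have h17 : a % 17 < 17 := Nat.mod_lt _ (by norm_num)
    interval_cases h' : a % 17 <;> omega
  unfold rN PN
  rw [decide_eq_true_iff, e17]
  exact (and_iff_right h0).symm

/-- the unit of the class `PN` -/
noncomputable def LN : ℝ := (1400832 : ℕ) / 1785 * dl 14280

theorem cN1 {c : ℕ} (hc : c < 8) (h2 : c % 2 = 1) :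
    Tendsto (fun Y : ℕ => (CC c (rN 1) Y : ℝ) / Y) atTop (nhds LN) := cc_lim hc h2 _ rN1

theorem cN2 {c : ℕ} (hc : c < 8) (h2 : c % 2 = 1) :
    Tendsto (fun Y : ℕ => (CC c (rN 2) Y : ℝ) / Y) atTop (nhds LN) := cc_lim hc h2 _ rN2

/-- the limits of the class `PN` -/
theorem limN : ∀ s k c, (s = 1 ∨ s = -1) → (k = 1 ∨ k = 2) → (c = 1 ∨ c = 3) →
    Tendsto (fun Y : ℕ => (NN PN s k c Y : ℝ) / Y) atTop
      (nhds ((fun s _ _ => if s = 1 then 0 else LN + LN : ℤ → ℕ → ℕ → ℝ) s k c)) := by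
  intro s k c hs hk hc
  rcases hs with rfl | rfl
  · simp only [nn_pos (P := PN) (fun d h => h.1), Nat.cast_zero, zero_div, if_true]
    exact tendsto_const_nhds
  · have e : ∀ Y, NN PN (-1) k c Y = CC c (rN k) Y + CC (c + 4) (rN k) Y :=
      fun Y => nn_two hc Y fun n hn _ => (rN_iff hk hn).symm
    simp only [e]
    rw [if_neg (by norm_num)]
    rcases hk with rfl | rfl
    · rcases hc with rfl | rfl
      · exact add_lim (cN1 (by norm_num) (by norm_num)) (cN1 (by norm_num) (by norm_num))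
      · exact add_lim (cN1 (by norm_num) (by norm_num)) (cN1 (by norm_num) (by norm_num))
    · rcases hc with rfl | rfl
      · exact add_lim (cN2 (by norm_num) (by norm_num)) (cN2 (by norm_num) (by norm_num))
      · exact add_lim (cN2 (by norm_num) (by norm_num)) (cN2 (by norm_num) (by norm_num))

theorem dens_PN_NS : Tendsto (fun X : ℕ => (NS PN X : ℝ) / (NS (fun _ => True) X : ℝ)) atTop
    (nhds (19 / 72)) := by
  have hd : 0 < dl 14280 := dl_pos (by norm_num)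
  refine quo (gen_NS limN) (gen_NS limT) ?_ ?_
  · unfold LT
    positivity
  · unfold LT LN
    norm_num
    field_simp
    norm_num

theorem dens_PN_NF : Tendsto (fun X : ℕ => (NF PN X : ℝ) / (NF (fun _ => True) X : ℝ)) atTop
    (nhds (19 / 72)) := by
  have hd : 0 < dl 14280 := dl_pos (by norm_num)
  refine quo (gen_NF limN) (gen_NF limT) ?_ ?_
  · unfold LT
    positivity
  · unfold LT LN
    norm_num
    field_simp
    norm_num

end Pool.Agent.N972.JT
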