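import Pool.Agent.N972.JT.Dn5
import Pool.Agent.N972.JT.L17
import Pool.Agent.N877.JX.Lah
import Pool.Agent.N809.P17.All
import Pool.Agent.N875.X15.ClE
import Pool.Agent.N969.P15.QF

/-!
# JT: independence of the class group and of the curve of conductor 17
-/

set_option autoImplicit false
set_option linter.all false

open scoped Classical

namespace Pool.Agent.N972.JT.Ind

open Finset Filter
open Pool.Agent.Y703.CQ (c2)
open Pool.Agent.N916.GB (eta)
open Pool.Agent.N875.X15 (Fin2 qc_P15 qc_iff_class qe_iff_class)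
open Pool.Agent.N916.TE (FD Go)
open Pool.Agent.N919.BS (NN NS NF HG Rt17)
open Pool.Agent.N916.MO (G17)
open Pool.Agent.N916.AM (LAH)
open Pool.Agent.N916.PQ (PM pm_all hg_one)
open Pool.Agent.N809.JT (J15)
open Pool.Agent.N963.JT (Sp sp_rt sp_mod KC KC_prop mem_KC ec01 dens_NS dens_NF cls_NS cls_NF)
open Pool.Agent.N972.JT

/-- the class group of `ℚ(√d)` has no element of order four -/
def NO4 (d : ℤ) : Prop :=
  ∀ (K : Type) [Field K] [NumberField K], Module.finrank ℚ K = 2 →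
    (∃ s : K, s ^ 2 = (d : K)) →
    ∀ c : ClassGroup (NumberField.RingOfIntegers K), orderOf c ≠ 4

/-- `2`-Selmer minimal, conductor 17 -/
def R17 (d : ℤ) : Prop := Fin2 (Pool.Agent.N875.P17.WS d)

theorem r17_iff {d : ℤ} (hs : Squarefree d) : R17 d ↔ Rt17 d ∧ G17 d :=
  Pool.Agent.N809.P17.fin2_all hs

/-! ### the class group (after helpers 856, 875, 969) -/

lemma order_iff {G : Type} [Group G] : (∀ c : G, orderOf c ≠ 4) ↔ ∀ c : G, c ^ 4 = 1 → c ^ 2 = 1 := by
  constructor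
  · intro h c h4
    by_contra h2
    refine h c ?_
    have := orderOf_eq_prime_pow (x := c) (p := 2) (n := 1) (by simpa using h2)
      (by norm_num; exact h4)
    simpa using this
  · intro h c h4
    have h1 : c ^ 4 = 1 := by rw [← h4]; exact pow_orderOf_eq_one c
    have h2 := orderOf_dvd_of_pow_eq_one (h c h1)
    rw [h4] at h2
    omega

theorem class_of {m : ℤ} (h0 : m < 0) {Q : Prop}
    (key : ∀ (K : Type) [Field K] [NumberField K], Module.finrank ℚ K = 2 →
      (∃ s : K, s ^ 2 = (m : K)) →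
      ((∀ c : ClassGroup (NumberField.RingOfIntegers K), c ^ 4 = 1 → c ^ 2 = 1) ↔ Q)) :
    NO4 m ↔ Q := by
  constructor
  · intro h8
    obtain ⟨k, hk⟩ : ∃ k : ℕ, m = -(k : ℤ) := ⟨m.natAbs, by omega⟩
    obtain ⟨K, i1, i2, h6, h7⟩ := Pool.Agent.N969.P15.exists_qf (n := k) (by omega)
    have h9 : ∃ s : K, s ^ 2 = (m : K) := by
      obtain ⟨s, hs⟩ := h7
      refine ⟨s, ?_⟩
      rw [hs, hk]
      push_cast
      rfl
    exact (key K h6 h9).1 (order_iff.1 (h8 K h6 h9))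
  · intro h8 K i1 i2 h6 h7
    exact order_iff.2 ((key K h6 h7).2 h8)

theorem sqf_mod4 {d : ℤ} (hd : Squarefree d) : d % 4 ≠ 0 := by
  intro h
  have h1 : (2 * 2 : ℤ) ∣ d := by
    have : (4 : ℤ) ∣ d := Int.dvd_of_emod_eq_zero h
    simpa using this
  have := hd 2 h1
  rw [Int.isUnit_iff] at this
  omega

theorem no4_cg {d : ℤ} (hd : Squarefree d) (h0 : d < -1) : NO4 d ↔ Cg d := by
  have h4 := sqf_mod4 hd
  obtain ⟨n, rfl⟩ : ∃ n : ℕ, d = -(n : ℤ) := ⟨d.natAbs, by omega⟩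
  have hn : Squarefree n := by
    rw [Pool.Agent.N919.BS.sq_neg, Int.squarefree_natCast] at hd
    exact hd
  by_cases h : n % 4 = 3
  · have e : Dn (-(n : ℤ)) = n := by
      unfold Dn
      rw [if_pos (by omega)]
      omega
    have ho : n % 2 = 1 := by omega
    have hg : Go n ↔ Pool.Agent.N969.P15.Qc n :=
      ⟨fun h => h.1 ho, fun h => ⟨fun _ => h, fun h2 => by omega⟩⟩
    unfold Cg
    rw [e, hg]
    refine class_of (by omega) fun K _ _ h6 h7 => ?_
    have h9 : ∃ s : K, s ^ 2 = -(n : K) := by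
      obtain ⟨s, hs'⟩ := h7
      refine ⟨s, ?_⟩
      rw [hs']
      push_cast
      rfl
    rw [qc_iff_class hn h K h6 h9, qc_P15 hn.ne_zero]
  · have e : Dn (-(n : ℤ)) = 4 * n := by
      unfold Dn
      rw [if_neg (by omega)]
      omega
    have hg : Go (4 * n) ↔ Pool.Agent.N969.P15.Qe (4 * n) :=
      ⟨fun h => h.2 (by omega), fun h => ⟨fun h2 => by omega, fun _ => h⟩⟩
    unfold Cg
    rw [e, hg]
    refine class_of (by omega) fun K _ _ h6 h7 => ?_
    have h9 : ∃ s : K, s ^ 2 = -((4 * n / 4 : ℕ) : K) := by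
      obtain ⟨s, hs⟩ := h7
      refine ⟨s, ?_⟩
      have e4 : 4 * n / 4 = n := by omega
      rw [hs, e4, Int.cast_neg, Int.cast_natCast]
    exact qe_iff_class ⟨n, rfl, hn, by omega⟩ (by omega) K h6 h9

/-! ### the marginal laws -/

/-- from the classes to the residues -/
theorem mk_hg {G : ℤ → Prop} {η : ℝ} (h0 : 0 ≤ η) (h1 : η ≤ 1)
    (h : ∀ {M : ℕ}, 136 ∣ M → 0 < M → ∀ {k c : ℕ} {t : Bool} {r s : ZMod 2},
      PM (-1) k c t r s → ∀ K : Finset ℕ,
      (∀ a ∈ K, a % 4 = c ∧ Rt17 (-1 * ((k * a : ℕ) : ℤ))) →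
      LAH M K (fun S => G (-1 * ((k * ∏ v ∈ S, v : ℕ) : ℤ))) η)
    {m : ℕ} (hm : 0 < m) (A : Set ℤ) :
    HG (fun d => PN d ∧ d % (m : ℤ) ∈ A) G η := by
  intro s' k c hs hk hc
  obtain ⟨t, r, s, H⟩ := pm_all hs hk hc
  have hM : 0 < 2040 * m := by positivity
  have hdM : 2040 ∣ 2040 * m := Dvd.intro _ rfl
  have hneg : Sp (2040 * m) fun d => d < 0 := by
    intro a b hab _
    show a < 0 ↔ b < 0
    omega
  have hP : Sp (2040 * m) fun d => PN d ∧ d % (m : ℤ) ∈ A :=
    (hneg.and (sp_rt (Dvd.dvd.trans (by norm_num) hdM))).and (sp_mod (Dvd.intro_left _ rfl) A)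
  have h4 : 4 ∣ 2040 * m := Dvd.dvd.trans (by norm_num) hdM
  have hL : LAH (2040 * m) (KC (2040 * m) (fun d => PN d ∧ d % (m : ℤ) ∈ A) s' k c)
      (fun S => G (s' * ((k * ∏ v ∈ S, v : ℕ) : ℤ))) η := by
    rcases hs with rfl | rfl
    · intro ε hε
      refine ⟨0, ?_⟩
      intro ι _ _ S₀ p hS₀ hp hpi hpK hN hR
      exfalso
      have h1 := (KC_prop hpK).2.1.1
      have h2 : (0 : ℤ) ≤ ((k * (((∏ v ∈ S₀, v) * ∏ i, p i) % (2040 * m)) : ℕ) : ℤ) :=
        Int.natCast_nonneg _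
      omega
    · exact h (Dvd.dvd.trans (by norm_num) hdM) hM H _ fun a ha =>
        ⟨(KC_prop ha).1, (KC_prop ha).2.1.2⟩
  have h := hg_one (s' := s') (k := k) (c := c) (M := 2040 * m)
    (f := fun d => decide (PN d ∧ d % (m : ℤ) ∈ A))
    (Q := G) (Dvd.dvd.trans (by norm_num) hdM) hM hc h0 h1
    (fun n hn => by
      rw [mem_KC hM h4 hP hs hk hc hn, decide_eq_true_iff]) hL
  simpa only [decide_eq_true_iff] using h

/-- the class groups -/
theorem hgC {m : ℕ} (hm : 0 < m) (A : Set ℤ) : HG (fun d => PN d ∧ d % (m : ℤ) ∈ A) Cg eta :=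
  mk_hg Pool.Agent.N916.PQ.eta01.1 Pool.Agent.N916.PQ.eta01.2
    (fun h136 hM0 _ _ _ _ _ H K hK => Pool.Agent.N877.JX.lahJ
      ((by norm_num : 8 ∣ 136).trans h136) hM0
      (jcg ((by norm_num : 8 ∣ 136).trans h136) hM0 H fun a ha => (hK a ha).1)) hm A

/-- level 17 -/
theorem hg17 {m : ℕ} (hm : 0 < m) (A : Set ℤ) : HG (fun d => PN d ∧ d % (m : ℤ) ∈ A) G17 c2 :=
  mk_hg Pool.Agent.N916.MO.c201.1 Pool.Agent.N916.MO.c201.2
    (fun h136 hM0 _ _ _ _ _ H K hK => Pool.Agent.N972.JT.L17.lah17 h136 hM0 H K hK) hm A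

/-- both -/
theorem hgB {m : ℕ} (hm : 0 < m) (A : Set ℤ) :
    HG (fun d => PN d ∧ d % (m : ℤ) ∈ A) (fun d => Cg d ∧ G17 d) (eta * c2) := hgC_cls hm A

/-! ### the four patterns -/

theorem NN_split (P A B : ℤ → Prop) (s : ℤ) (k c Y : ℕ) : NN (fun d => P d ∧ A d) s k c Y =
    NN (fun d => P d ∧ (A d ∧ B d)) s k c Y + NN (fun d => P d ∧ (A d ∧ ¬ B d)) s k c Y := by
  unfold Pool.Agent.N919.BS.NN
  apply card_or
  · intro x _
    tauto
  · intro x
    tauto

theorem hg_diff {P A B : ℤ → Prop} {x y : ℝ} (hA : HG P A x) (hAB : HG P (fun d => A d ∧ B d) y) :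
    HG P (fun d => A d ∧ ¬ B d) (x - y) := by
  intro s k c hs hk hc ε hε
  obtain ⟨Y1, H1⟩ := hA s k c hs hk hc (ε / 2) (by positivity)
  obtain ⟨Y2, H2⟩ := hAB s k c hs hk hc (ε / 2) (by positivity)
  refine ⟨max Y1 Y2, fun Y hY => ?_⟩
  have a1 := H1 Y ((le_max_left _ _).trans hY)
  have a2 := H2 Y ((le_max_right _ _).trans hY)
  have e := NN_split P A B s k c Y
  have e' : (NN (fun d => P d ∧ A d) s k c Y : ℝ) = NN (fun d => P d ∧ (A d ∧ B d)) s k c Y +
      NN (fun d => P d ∧ (A d ∧ ¬ B d)) s k c Y := by exact_mod_cast e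
  rw [abs_le] at a1 a2 ⊢
  constructor
  · linarith [a1.1, a2.2]
  · linarith [a1.2, a2.1]

theorem hg_congr {P A B : ℤ → Prop} {x y : ℝ} (h : HG P A x) (hAB : ∀ d, A d ↔ B d)
    (hxy : x = y) : HG P B y := by
  have e : A = B := funext fun d => propext (hAB d)
  rw [← e, ← hxy]
  exact h

theorem hg_true {P : ℤ → Prop} : HG P (fun _ => True) 1 := by
  intro s k c _ _ _ ε hε
  refine ⟨0, fun Y _ => ?_⟩
  have e : (fun d => P d ∧ True) = P := funext fun d => propext (and_iff_left trivial)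
  rw [e, one_mul, sub_self, abs_zero]
  positivity

/-- the densities of the four patterns -/
noncomputable def pr (x : ℝ) (a : Bool) : ℝ := if a = true then x else 1 - x

theorem four {P A B : ℤ → Prop} {x y : ℝ} (hA : HG P A x) (hB : HG P B y)
    (hAB : HG P (fun d => A d ∧ B d) (x * y)) (a b : Bool) :
    HG P (fun d => (A d ↔ a = true) ∧ (B d ↔ b = true)) (pr x a * pr y b) := by
  have hAB' : HG P (fun d => B d ∧ A d) (x * y) := hg_congr hAB (fun d => and_comm) rfl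
  have h10 := hg_diff hA hAB
  have h01 := hg_diff hB hAB'
  have hnA : HG P (fun d => True ∧ ¬ A d) (1 - x) :=
    hg_diff hg_true (hg_congr hA (fun d => by simp) rfl)
  have hnA' : HG P (fun d => ¬ A d) (1 - x) := hg_congr hnA (fun d => by simp) rfl
  have h01' : HG P (fun d => ¬ A d ∧ B d) (y - x * y) := hg_congr h01 (fun d => and_comm) rfl
  have h00 : HG P (fun d => ¬ A d ∧ ¬ B d) (1 - x - (y - x * y)) := hg_diff hnA' h01'
  cases a <;> cases b
  · refine hg_congr h00 (fun d => by simp) ?_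
    unfold pr
    simp only [Bool.false_eq_true, if_false]
    ring
  · refine hg_congr h01' (fun d => by simp) ?_
    unfold pr
    simp only [Bool.false_eq_true, if_false, if_true]
    ring
  · refine hg_congr h10 (fun d => by simp) ?_
    unfold pr
    simp only [Bool.false_eq_true, if_false, if_true]
    ring
  · refine hg_congr hAB (fun d => by simp) ?_
    unfold pr
    simp only [if_true]

theorem card_near {s : Finset ℕ} {p q : ℕ → Prop} {_ : DecidablePred p} {_ : DecidablePred q}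
    (h : ∀ x ∈ s, x ≠ 1 → (p x → q x)) : (s.filter p).card ≤ (s.filter q).card + 1 := by
  have h1 : s.filter p ⊆ insert 1 (s.filter q) := by
    intro x hx
    rw [mem_insert, mem_filter]
    obtain ⟨h2, h3⟩ := mem_filter.1 hx
    by_cases h4 : x = 1
    · exact Or.inl h4
    · exact Or.inr ⟨h2, h x h2 h4 h3⟩
  exact (card_le_card h1).trans (card_insert_le _ _)

/-- a change of the criterion for `d = -1` -/
theorem hg_congr_ne {P Q Q' : ℤ → Prop} {η : ℝ} (h : HG P Q η)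
    (hQ : ∀ d, Squarefree d → d ≠ -1 → P d → (Q d ↔ Q' d)) (hP : ∀ d, P d → d < 0) :
    HG P Q' η := by
  intro s' k c hs hk hc ε hε
  obtain ⟨Y₀, hY⟩ := h s' k c hs hk hc (ε / 2) (by positivity)
  obtain ⟨N, hN⟩ := exists_nat_gt (2 / ε)
  refine ⟨max Y₀ N, fun Y hY' => ?_⟩
  have h1 := hY Y ((le_max_left _ _).trans hY')
  have key : ∀ M, 0 < M → M ≠ 1 → Squarefree M → M % 4 = c → P (s' * ((k * M : ℕ) : ℤ)) →
      (Q (s' * ((k * M : ℕ) : ℤ)) ↔ Q' (s' * ((k * M : ℕ) : ℤ))) := by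
    intro M h0 h1 h2 h3 h4
    refine hQ _ ?_ ?_ h4
    · rcases hs with rfl | rfl
      · rw [one_mul, Int.squarefree_natCast]
        rcases hk with rfl | rfl
        · rwa [one_mul]
        · exact (Pool.Agent.N919.BS.sq_two (by rcases hc with rfl | rfl <;> omega)).2 h2
      · rw [neg_one_mul, Pool.Agent.N919.BS.sq_neg, Int.squarefree_natCast]
        rcases hk with rfl | rfl
        · rwa [one_mul]
        · exact (Pool.Agent.N919.BS.sq_two (by rcases hc with rfl | rfl <;> omega)).2 h2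
    · rcases hs with rfl | rfl <;> rcases hk with rfl | rfl <;> push_cast <;> omega
  have e1 : NN (fun d => P d ∧ Q d) s' k c Y ≤ NN (fun d => P d ∧ Q' d) s' k c Y + 1 := by
    unfold Pool.Agent.N919.BS.NN
    apply card_near
    rintro M hM hM1 ⟨h2, h3, h4, h5⟩
    rw [mem_Icc] at hM
    exact ⟨h2, h3, h4, (key M hM.1 hM1 h2 h3 h4).1 h5⟩
  have e2 : NN (fun d => P d ∧ Q' d) s' k c Y ≤ NN (fun d => P d ∧ Q d) s' k c Y + 1 := by
    unfold Pool.Agent.N919.BS.NN
    apply card_near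
    rintro M hM hM1 ⟨h2, h3, h4, h5⟩
    rw [mem_Icc] at hM
    exact ⟨h2, h3, h4, (key M hM.1 hM1 h2 h3 h4).2 h5⟩
  have f1 : (NN (fun d => P d ∧ Q d) s' k c Y : ℝ) ≤ NN (fun d => P d ∧ Q' d) s' k c Y + 1 := by
    exact_mod_cast e1
  have f2 : (NN (fun d => P d ∧ Q' d) s' k c Y : ℝ) ≤ NN (fun d => P d ∧ Q d) s' k c Y + 1 := by
    exact_mod_cast e2
  have g1 : (N : ℝ) ≤ Y := by exact_mod_cast (le_max_right _ _).trans hY'
  have g2 : 1 ≤ ε / 2 * Y := by
    have : 2 / ε ≤ Y := hN.le.trans g1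
    rw [div_le_iff₀ hε] at this
    linarith
  rw [abs_le] at h1 ⊢
  constructor <;> linarith [h1.1, h1.2]

/-- **the four patterns of the class group and of the curve of conductor 17** -/
theorem law {m : ℕ} (hm : 0 < m) (A : Set ℤ) (a b : Bool) :
    HG (fun d => PN d ∧ d % (m : ℤ) ∈ A)
      (fun d => (NO4 d ↔ a = true) ∧ (R17 d ↔ b = true)) (pr eta a * pr c2 b) := by
  refine hg_congr_ne (four (hgC hm A) (hg17 hm A) (hgB hm A) a b) ?_ fun d h => h.1.1
  intro d hd h1 hd'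
  obtain ⟨⟨h0, h17⟩, -⟩ := hd'
  have hc := no4_cg hd (by omega)
  have j5 : R17 d ↔ G17 d := by
    rw [r17_iff hd]
    exact and_iff_right h17
  rw [j5, hc]

theorem law_all (a b : Bool) :
    HG PN (fun d => (NO4 d ↔ a = true) ∧ (R17 d ↔ b = true)) (pr eta a * pr c2 b) := by
  have h1 := law (m := 1) one_pos Set.univ a b
  simpa only [Set.mem_univ, and_true] using h1

end Pool.Agent.N972.JT.Ind
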